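import Pool.Agent.H36.Skew6

/-!
Skew-supermodular colouring with two prescribed class sizes is decidable in oracle polynomial time.
-/

namespace Pool.Agent.Results.MP_1195b1_lc.PolyTime

open Pool.Agent.H36.SkewDefs

theorem result : OracleP Valid Feasible
    fun (a : Inst) (p : Bool → Finset ℕ → ℤ) (x : Bool × Finset ℕ × ℕ) =>
      Covers a.1 (p x.1) x.2.1 x.2.2 :=
  Pool.Agent.H36.Skew.main

end Pool.Agent.Results.MP_1195b1_lc.PolyTime
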